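import Pool.Agent.H71.FU0.LocF0
import Pool.Agent.H71.DB.Main

/-!
# Project FU, degree one: the fields

Comparison with the full assembly map in degree one of `DB/Defs.lean`.
-/

set_option autoImplicit false

open Matrix

universe u v w

namespace Pool.Agent.H71.FU0

open Pool.Agent.H71.FQ
open Pool.Agent.H71.FJ (IdemMat K0 K0.mk K0.map K0.hom_ext)
open Pool.Agent.H95.WH (K1 K1.mk K1.map K1.map_map FamSub conjHom FinSub)

section

variable {k : Type u} [CommRing k] {G : Type v} [Group G]

/-- the symbol in the second variable -/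
noncomputable def chiD (F : FamSub G FinSub) (x : K0 (MonoidAlgebra k F.1)) :
    Subgroup.centralizer (F.1 : Set G) →* Multiplicative (DB.H1K0 k G) where
  toFun z := Multiplicative.ofAdd (DB.sy F x z)
  map_one' := by
    have h := DB.sy_mul F x 1 1
    rw [mul_one] at h
    exact congrArg Multiplicative.ofAdd (left_eq_add.1 h)
  map_mul' z z' := congrArg Multiplicative.ofAdd (DB.sy_mul F x z z')

/-- the biadditive map -/
noncomputable def bD (F : FamSub G FinSub) : K0 (MonoidAlgebra k F.1) →+
    HG (Subgroup.centralizer (F.1 : Set G)) 0 →+ DB.H1K0 k G :=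
  AddMonoidHom.mk' (fun x => ev1 (chiD F x)) (by
    intro x y
    apply hg0_ext
    intro z
    rw [AddMonoidHom.add_apply, ev1_e1, ev1_e1, ev1_e1]
    exact DB.sy_add F x y z)

theorem bD_e1 (F : FamSub G FinSub) (x : K0 (MonoidAlgebra k F.1))
    (z : Subgroup.centralizer (F.1 : Set G)) : bD F x (e1 z) = DB.sy F x z := by
  change ev1 (chiD F x) (e1 z) = _
  rw [ev1_e1]
  rfl

theorem bD_conj (F F' : FamSub G FinSub) (g : G) (h : ∀ x ∈ F.1, g * x * g⁻¹ ∈ F'.1)
    (x : K0 (MonoidAlgebra k F.1)) (z : HG (Subgroup.centralizer (F'.1 : Set G)) 0) :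
    bD F' (K0.map (MonoidAlgebra.mapDomainRingHom k (conjHom g F.1 F'.1 h)) x) z =
      bD F x (HG.map 0 (centConj g F.1 F'.1 h) z) := by
  have h1 : bD F' (K0.map (MonoidAlgebra.mapDomainRingHom k (conjHom g F.1 F'.1 h)) x) =
      (bD F x).comp (HG.map 0 (centConj g F.1 F'.1 h)) := by
    apply hg0_ext
    intro z
    rw [AddMonoidHom.comp_apply, map_e1, bD_e1, bD_e1]
    exact DB.sy_conj F F' g h x z
  exact DFunLike.congr_fun h1 z

/-- the homomorphism to `H1K0` -/
noncomputable def toD0 : HnK0 k G 0 →+ DB.H1K0 k G := Pool.Agent.H16.FU.lift0 (fun F => bD F) bD_conj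

theorem toD0_sy (F : FamSub G FinSub) (x : K0 (MonoidAlgebra k F.1))
    (z : HG (Subgroup.centralizer (F.1 : Set G)) 0) : toD0 (sy F x z) = bD F x z :=
  Pool.Agent.H16.FU.lift0_sy _ _ F x z

/-- the homomorphism from `H1K0` -/
noncomputable def fromD0 : DB.H1K0 k G →+ HnK0 k G 0 :=
  QuotientAddGroup.lift (DB.SymRel k G)
    (FreeAbelianGroup.lift fun s : DB.Sym k G => (sy s.F s.x (e1 s.z) : HnK0 k G 0)) (by
      rw [DB.SymRel, AddSubgroup.closure_le]
      rintro w ((⟨F, x, y, z, rfl⟩ | ⟨F, x, z, z', rfl⟩) | ⟨F, F', g, h, x, z, rfl⟩)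
      · change FreeAbelianGroup.lift _ _ = 0
        rw [DB.symX, DB.symOf, DB.symOf, DB.symOf, map_sub, map_add,
          FreeAbelianGroup.lift_apply_of, FreeAbelianGroup.lift_apply_of,
          FreeAbelianGroup.lift_apply_of, sub_eq_zero]
        exact sy_add F x y (e1 z)
      · change FreeAbelianGroup.lift _ _ = 0
        rw [DB.symZ, DB.symOf, DB.symOf, DB.symOf, map_sub, map_add,
          FreeAbelianGroup.lift_apply_of, FreeAbelianGroup.lift_apply_of,
          FreeAbelianGroup.lift_apply_of, sub_eq_zero]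
        exact (congrArg (sy F x) (e1_mul z z')).trans (sy_addz F x _ _)
      · change FreeAbelianGroup.lift _ _ = 0
        rw [DB.symC, DB.symOf, DB.symOf, map_sub, FreeAbelianGroup.lift_apply_of,
          FreeAbelianGroup.lift_apply_of, sub_eq_zero]
        refine (sy_conj F F' g h x (e1 z)).trans ?_
        rw [map_e1]
        rfl)

theorem fromD0_sy (F : FamSub G FinSub) (x : K0 (MonoidAlgebra k F.1))
    (z : Subgroup.centralizer (F.1 : Set G)) : fromD0 (DB.sy F x z) = sy F x (e1 z) :=
  FreeAbelianGroup.lift_apply_of (fun s : DB.Sym k G => (sy s.F s.x (e1 s.z) : HnK0 k G 0))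
    ⟨F, x, z⟩

theorem fromD0_toD0 (w : HnK0 k G 0) : fromD0 (toD0 w) = w := by
  have h : (fromD0 (k := k) (G := G)).comp toD0 = AddMonoidHom.id _ := by
    apply hnk0_ext
    intro F x z
    rw [AddMonoidHom.comp_apply, toD0_sy, AddMonoidHom.id_apply]
    induction z using hg0_induction with
    | h0 =>
      rw [map_zero, map_zero]
      have e : sy F x (0 : HG (Subgroup.centralizer (F.1 : Set G)) 0) +
          sy F x (0 : HG (Subgroup.centralizer (F.1 : Set G)) 0) =
          (sy F x (0 : HG (Subgroup.centralizer (F.1 : Set G)) 0) : HnK0 k G 0) := by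
        rw [← sy_addz, add_zero]
      exact (left_eq_add.1 e.symm).symm
    | h1 a => rw [bD_e1, fromD0_sy]
    | h2 a b ha hb => rw [map_add, map_add, ha, hb, sy_addz]
    | h3 a ha =>
      rw [map_neg, map_neg, ha]
      have e : sy F x a + sy F x (-a) = (0 : HnK0 k G 0) := by
        rw [← sy_addz, add_neg_cancel]
        have e : sy F x (0 : HG (Subgroup.centralizer (F.1 : Set G)) 0) +
            sy F x (0 : HG (Subgroup.centralizer (F.1 : Set G)) 0) =
            (sy F x (0 : HG (Subgroup.centralizer (F.1 : Set G)) 0) : HnK0 k G 0) := by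
          rw [← sy_addz, add_zero]
        exact left_eq_add.1 e.symm
      exact neg_eq_of_add_eq_zero_right e
  exact DFunLike.congr_fun h w

/-- the homomorphism to the colimit -/
noncomputable def toD1 : H0K1 k G →+ DB.ColimK1 k G :=
  lift10 (fun F => DB.cl1 k G F) (fun F F' g h x => DB.cl1_conj k G F F' g h x)

theorem toD1_cl (F : FamSub G FinSub) (x : K1 (MonoidAlgebra k F.1)) :
    toD1 (cl F x) = DB.cl1 k G F x := lift10_cl _ _ F x

/-- the homomorphism from the colimit -/
noncomputable def fromD1 : DB.ColimK1 k G →+ H0K1 k G :=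
  QuotientAddGroup.lift (DB.colimRel1 k G)
    (DB.sumLift1 k G fun F => (cl F : K1 (MonoidAlgebra k F.1) →+ H0K1 k G)) (by
      rw [DB.colimRel1, AddSubgroup.closure_le]
      rintro z ⟨F, F', g, h, x, rfl⟩
      change DB.sumLift1 k G _ _ = 0
      refine (map_sub (DB.sumLift1 k G fun F => (cl F : K1 (MonoidAlgebra k F.1) →+ H0K1 k G))
        _ _).trans ?_
      refine sub_eq_zero.2 ?_
      refine (DB.sumLift1_inc k G (fun F => (cl F : K1 (MonoidAlgebra k F.1) →+ H0K1 k G)) F'
        _).trans ?_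
      refine Eq.trans ?_ (DB.sumLift1_inc k G
        (fun F => (cl F : K1 (MonoidAlgebra k F.1) →+ H0K1 k G)) F _).symm
      exact cl_conj F F' g h x)

theorem fromD1_cl1 (F : FamSub G FinSub) (x : K1 (MonoidAlgebra k F.1)) :
    fromD1 (DB.cl1 k G F x) = cl F x :=
  DB.sumLift1_inc k G (fun F => (cl F : K1 (MonoidAlgebra k F.1) →+ H0K1 k G)) F x

theorem fromD1_toD1 (w : H0K1 k G) : fromD1 (toD1 w) = w := by
  have h : (fromD1 (k := k) (G := G)).comp toD1 = AddMonoidHom.id _ := by
    apply h0k1_ext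
    intro F x
    rw [AddMonoidHom.comp_apply, toD1_cl, fromD1_cl1, AddMonoidHom.id_apply]
  exact DFunLike.congr_fun h w

theorem kap_asm0 (w : HnK0 k G 0) : kap (assemblyN k 0 G w) = DB.asmH k G (toD0 w) := by
  have h : kap.comp (assemblyN k 0 G) = (DB.asmH k G).comp toD0 := by
    apply hnk0_ext
    intro F x z
    rw [AddMonoidHom.comp_apply, AddMonoidHom.comp_apply, toD0_sy, asmN_sy]
    have h1 : kap.comp (gasm k 0 F.1.subtype (Subgroup.centralizer (F.1 : Set G)).subtype
        (cent_comm F.1) x) = (DB.asmH k G).comp (bD F x) := by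
      apply hg0_ext
      intro γ
      rw [AddMonoidHom.comp_apply, AddMonoidHom.comp_apply, bD_e1, DB.asmH_sy]
      have h4 : kap.comp ((AddMonoidHom.eval (e1 γ)).comp (gasm k 0 F.1.subtype
          (Subgroup.centralizer (F.1 : Set G)).subtype (cent_comm F.1))) =
          DB.gbass k F.1.subtype (γ : G) (DB.cent_comm γ) := by
        apply K0.hom_ext
        intro a
        change kap (gasm k 0 F.1.subtype (Subgroup.centralizer (F.1 : Set G)).subtype
          (cent_comm F.1) (K0.mk a) (e1 γ)) = _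
        rw [gasm, asm_mk, map_e1, kap_cls, DB.gbass, DB.bass_mk]
        congr 1
      exact DFunLike.congr_fun h4 x
    exact DFunLike.congr_fun h1 z
  exact DFunLike.congr_fun h w

theorem kap_asm1 (w : H0K1 k G) : kap (assembly10 k G w) = DB.asm1 k G (toD1 w) := by
  have h : kap.comp (assembly10 k G) = (DB.asm1 k G).comp toD1 := by
    apply h0k1_ext
    intro F x
    rw [AddMonoidHom.comp_apply, AddMonoidHom.comp_apply, toD1_cl, assembly10_cl, kap_kq1,
      DB.asm1_cl]
  exact DFunLike.congr_fun h w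

theorem kap_asm00 (w : HnK0 k G 0 × H0K1 k G) :
    kap (assembly00 k G w) = DB.asm1 k G (toD1 w.2) + DB.asmH k G (toD0 w.1) := by
  rw [assembly00_apply, map_add, kap_asm0, kap_asm1, add_comm]

theorem ratInj00_of_full (h : DB.RatInj (DB.fullAssembly k G)) : RatInj (assembly00 k G) := by
  rw [ratInj_iff]
  intro z M hM hz
  have h1 : M • (DB.asm1 k G (toD1 z.2) + DB.asmH k G (toD0 z.1)) = 0 := by
    rw [← kap_asm00]
    have h2 : kap (M • assembly00 k G z) = 0 := by rw [hz, map_zero]
    rw [map_zsmul] at h2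
    exact h2
  obtain ⟨m, hm, h2⟩ := (ratInj_iff (f := DB.fullAssembly k G)).1 h (toD1 z.2, toD0 z.1) M hM h1
  refine ⟨m, hm, ?_⟩
  have h3 : m • toD1 z.2 = 0 := congrArg Prod.fst h2
  have h4 : m • toD0 z.1 = 0 := congrArg Prod.snd h2
  refine Prod.ext ?_ ?_
  · change m • z.1 = 0
    rw [← fromD0_toD0 z.1, ← map_zsmul, h4, map_zero]
  · change m • z.2 = 0
    rw [← fromD1_toD1 z.2, ← map_zsmul, h3, map_zero]

end

/-- separation in degree one -/
theorem padicSep_of {p : ℕ} [Fact p.Prime] {Γ : Type v} [Group Γ] (h : PSep p Γ 0) :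
    DB.PadicSep p Γ := by
  intro z hz
  obtain ⟨m, hm, h1⟩ := h (e1 z) (fun f => by
    let χ : Γ →* Multiplicative ℤ_[p] :=
      { toFun := fun a => Multiplicative.ofAdd (f (e1 a))
        map_one' := by rw [e1_one, map_zero]; rfl
        map_mul' := fun a b => by rw [e1_mul, map_add]; rfl }
    have h2 : Multiplicative.ofAdd (f (e1 z)) = 1 := hz χ
    exact Multiplicative.ofAdd.injective h2)
  let χ : Γ →* Multiplicative (Additive (Abelianization Γ)) :=
    { toFun := fun a => Multiplicative.ofAdd (Additive.ofMul (Abelianization.of a))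
      map_one' := by rw [map_one]; rfl
      map_mul' := fun a b => by rw [map_mul]; rfl }
  have h2 : m • Additive.ofMul (Abelianization.of z) = 0 := by
    have h3 : ev1 χ (m • e1 z) = 0 := by rw [h1, map_zero]
    rw [map_zsmul, ev1_e1] at h3
    exact h3
  have h3 : (Abelianization.of z) ^ m = 1 := h2
  have h4 : Abelianization.of (z ^ m.natAbs) = 1 := by
    rw [map_pow]
    rcases Int.natAbs_eq m with h5 | h5
    · rw [h5, zpow_natCast] at h3
      exact h3
    · rw [h5, _root_.zpow_neg, zpow_natCast, inv_eq_one] at h3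
      exact h3
  refine ⟨m.natAbs, Int.natAbs_ne_zero.2 hm, ?_⟩
  exact (QuotientGroup.eq_one_iff _).1 h4

/-- **The fields of characteristic `p`.** -/
theorem ratInj00_field (p : ℕ) [Fact p.Prime] (k : Type u) [Field k] [hp : CharP k p] (G : Type v)
    [Group G] (hsep : ∀ C : Subgroup G, Finite C → IsCyclic C → ¬ p ∣ Nat.card C →
      PSep p (Subgroup.centralizer (C : Set G)) 0) : RatInj (assembly00 k G) := by
  refine ratInj00_of_full (DB.full_injective k G ?_)
  intro q hq hk C h1 h2 h3
  have hqp : q = p := CharP.eq k hk hp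
  subst hqp
  exact padicSep_of (hsep C h1 h2 h3)

end Pool.Agent.H71.FU0
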