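import Pool.Agent.H71.FU0.E1
import Pool.Agent.H71.FU1.Mor1
import Pool.Agent.H71.FU1.Prod1
import Pool.Agent.H71.FU1.Nil1

/-!
# Project FU, degree one: the colimit of the groups `K₁(R[F])`, the joint assembly map in degree one

`H0K1 R G` is the colimit of the groups `K₁(R[F])` over the finite subgroups `F` of `G`, `assembly10 R G` the map to
`KQ (R[G]) 0`, `assembly00 R G` the joint assembly map in degree one. The reductions of `FU1` in degree one.
-/

set_option autoImplicit false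

open Matrix
open scoped TensorProduct

universe u u' v w

namespace Pool.Agent.H71.FU0

open Pool.Agent.H71.FQ
open Pool.Agent.H71.FU1
open Pool.Agent.H71.FJ (K0 K0.map K0.flat K0.push K0.push_congr K0.map_push K0.push_map K0.nilLift_map
  NilKer)
open Pool.Agent.H95.WH (K1 K1.mk K1.lift K1.lift_mk K1.hom_ext K1.map K1.map_mk K1.map_map K1.push
  K1.map_push FamSub conjHom FinSub K1_map_conj)

section

variable (R : Type u) [Ring R] (G : Type v) [Group G]

/-- the symbols `[F, x]` -/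
abbrev Sy10 : Type (max u v) := Σ F : FamSub G FinSub, K1 (MonoidAlgebra R F.1)

/-- the relations -/
noncomputable def Rel10 : AddSubgroup (FreeAbelianGroup (Sy10 R G)) :=
  AddSubgroup.closure
    ({w | ∃ (F : FamSub G FinSub) (x y : K1 (MonoidAlgebra R F.1)),
        w = FreeAbelianGroup.of (⟨F, x + y⟩ : Sy10 R G) -
          (FreeAbelianGroup.of ⟨F, x⟩ + FreeAbelianGroup.of ⟨F, y⟩)} ∪
      {w | ∃ (F F' : FamSub G FinSub) (g : G) (h : ∀ x ∈ F.1, g * x * g⁻¹ ∈ F'.1)
        (x : K1 (MonoidAlgebra R F.1)),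
        w = FreeAbelianGroup.of (⟨F', K1.map (MonoidAlgebra.mapDomainRingHom R
          (conjHom g F.1 F'.1 h)) x⟩ : Sy10 R G) - FreeAbelianGroup.of ⟨F, x⟩})

/-- the colimit of the groups `K₁(R[F])` -/
def H0K1 : Type (max u v) := FreeAbelianGroup (Sy10 R G) ⧸ Rel10 R G

noncomputable instance instH0K1 : AddCommGroup (H0K1 R G) :=
  QuotientAddGroup.Quotient.addCommGroup (Rel10 R G)

end

section

variable {R : Type u} [Ring R] {S : Type u'} [Ring S] {G : Type v} [Group G]

theorem of_eq_add (F : FamSub G FinSub) (x y : K1 (MonoidAlgebra R F.1)) :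
    (QuotientAddGroup.mk (FreeAbelianGroup.of (⟨F, x + y⟩ : Sy10 R G)) : H0K1 R G) =
      QuotientAddGroup.mk (FreeAbelianGroup.of (⟨F, x⟩ : Sy10 R G)) +
        QuotientAddGroup.mk (FreeAbelianGroup.of (⟨F, y⟩ : Sy10 R G)) := by
  have h : FreeAbelianGroup.of (⟨F, x + y⟩ : Sy10 R G) -
      (FreeAbelianGroup.of (⟨F, x⟩ : Sy10 R G) + FreeAbelianGroup.of (⟨F, y⟩ : Sy10 R G)) ∈
        Rel10 R G := AddSubgroup.subset_closure (Or.inl ⟨F, x, y, rfl⟩)
  exact (QuotientAddGroup.eq_iff_sub_mem (N := Rel10 R G)).2 h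

/-- the class of `[F, x]` -/
noncomputable def cl (F : FamSub G FinSub) : K1 (MonoidAlgebra R F.1) →+ H0K1 R G :=
  AddMonoidHom.mk' (fun x => (QuotientAddGroup.mk (FreeAbelianGroup.of (⟨F, x⟩ : Sy10 R G)) :
    H0K1 R G)) (of_eq_add F)

theorem cl_conj (F F' : FamSub G FinSub) (g : G) (h : ∀ x ∈ F.1, g * x * g⁻¹ ∈ F'.1)
    (x : K1 (MonoidAlgebra R F.1)) :
    cl F' (K1.map (MonoidAlgebra.mapDomainRingHom R (conjHom g F.1 F'.1 h)) x) = cl F x := by
  have h : FreeAbelianGroup.of (⟨F', K1.map (MonoidAlgebra.mapDomainRingHom R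
          (conjHom g F.1 F'.1 h)) x⟩ : Sy10 R G) - FreeAbelianGroup.of (⟨F, x⟩ : Sy10 R G) ∈
        Rel10 R G := AddSubgroup.subset_closure (Or.inr ⟨F, F', g, h, x, rfl⟩)
  exact (QuotientAddGroup.eq_iff_sub_mem (N := Rel10 R G)).2 h

theorem h0k1_induction {P : H0K1 R G → Prop} (h0 : P 0)
    (h1 : ∀ (F : FamSub G FinSub) (x : K1 (MonoidAlgebra R F.1)), P (cl F x))
    (h2 : ∀ a b, P a → P b → P (a + b)) (h3 : ∀ a, P a → P (-a)) (w : H0K1 R G) : P w := by
  obtain ⟨y, rfl⟩ : ∃ y, (QuotientAddGroup.mk y : H0K1 R G) = w := QuotientAddGroup.mk_surjective w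
  induction y using FreeAbelianGroup.induction_on with
  | zero => exact h0
  | of s => exact h1 s.1 s.2
  | neg s _ => exact h3 _ (h1 s.1 s.2)
  | add x y hx hy => exact h2 _ _ hx hy

theorem h0k1_ext {M : Type*} [AddCommGroup M] {f g : H0K1 R G →+ M}
    (h : ∀ (F : FamSub G FinSub) (x : K1 (MonoidAlgebra R F.1)), f (cl F x) = g (cl F x)) :
    f = g := by
  ext x
  induction x using h0k1_induction with
  | h0 => rw [map_zero, map_zero]
  | h1 F x => exact h F x
  | h2 a b ha hb => rw [map_add, map_add, ha, hb]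
  | h3 a ha => rw [map_neg, map_neg, ha]

/-- homomorphisms out of the colimit -/
noncomputable def lift10 {M : Type*} [AddCommGroup M]
    (f : ∀ F : FamSub G FinSub, K1 (MonoidAlgebra R F.1) →+ M)
    (hf : ∀ (F F' : FamSub G FinSub) (g : G) (h : ∀ x ∈ F.1, g * x * g⁻¹ ∈ F'.1)
      (x : K1 (MonoidAlgebra R F.1)),
      f F' (K1.map (MonoidAlgebra.mapDomainRingHom R (conjHom g F.1 F'.1 h)) x) = f F x) :
    H0K1 R G →+ M :=
  QuotientAddGroup.lift (Rel10 R G) (FreeAbelianGroup.lift fun s : Sy10 R G => f s.1 s.2) (by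
    rw [Rel10, AddSubgroup.closure_le]
    rintro w (⟨F, x, y, rfl⟩ | ⟨F, F', g, h, x, rfl⟩)
    · change FreeAbelianGroup.lift _ _ = 0
      rw [map_sub, map_add, FreeAbelianGroup.lift_apply_of, FreeAbelianGroup.lift_apply_of,
        FreeAbelianGroup.lift_apply_of, map_add, sub_self]
    · change FreeAbelianGroup.lift _ _ = 0
      rw [map_sub, FreeAbelianGroup.lift_apply_of, FreeAbelianGroup.lift_apply_of, sub_eq_zero]
      exact hf F F' g h x)

theorem lift10_cl {M : Type*} [AddCommGroup M]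
    (f : ∀ F : FamSub G FinSub, K1 (MonoidAlgebra R F.1) →+ M)
    (hf : ∀ (F F' : FamSub G FinSub) (g : G) (h : ∀ x ∈ F.1, g * x * g⁻¹ ∈ F'.1)
      (x : K1 (MonoidAlgebra R F.1)),
      f F' (K1.map (MonoidAlgebra.mapDomainRingHom R (conjHom g F.1 F'.1 h)) x) = f F x)
    (F : FamSub G FinSub) (x : K1 (MonoidAlgebra R F.1)) : lift10 f hf (cl F x) = f F x :=
  FreeAbelianGroup.lift_apply_of (fun s : Sy10 R G => f s.1 s.2) ⟨F, x⟩

end

section

variable (R : Type u) [Ring R] (G : Type v) [Group G]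

/-- conjugations act trivially on `K₁(R[G])` -/
theorem map_conj_eq {H : Type*} [Group H] (f f' : H →* G) (g : G) (h : ∀ a, f' a = g * f a * g⁻¹)
    (x : K1 (MonoidAlgebra R H)) :
    K1.map (MonoidAlgebra.mapDomainRingHom R f') x =
      K1.map (MonoidAlgebra.mapDomainRingHom R f) x := by
  refine K1_map_conj _ _ (MonoidAlgebra.single g 1) (MonoidAlgebra.single g⁻¹ 1) ?_ ?_ ?_ x
  · rw [MonoidAlgebra.single_mul_single, mul_inv_cancel, mul_one]
    rfl
  · rw [MonoidAlgebra.single_mul_single, inv_mul_cancel, mul_one]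
    rfl
  · intro a
    induction a using MonoidAlgebra.induction_linear with
    | zero => rw [map_zero, map_zero, mul_zero, zero_mul]
    | add a b ha hb => rw [map_add, map_add, mul_add, add_mul, ha, hb]
    | single m r =>
      change MonoidAlgebra.mapDomain f' (MonoidAlgebra.single m r) =
        MonoidAlgebra.single g 1 * MonoidAlgebra.mapDomain f (MonoidAlgebra.single m r) *
          MonoidAlgebra.single g⁻¹ 1
      rw [MonoidAlgebra.mapDomain_single, MonoidAlgebra.mapDomain_single,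
        MonoidAlgebra.single_mul_single, MonoidAlgebra.single_mul_single, h, one_mul, mul_one]

/-- the assembly map on the `K₁`-part in degree one -/
noncomputable def assembly10 : H0K1 R G →+ KQ (MonoidAlgebra R G) 0 :=
  lift10 (fun F => kq1.comp (K1.map (MonoidAlgebra.mapDomainRingHom R F.1.subtype))) (by
    intro F F' g h x
    rw [AddMonoidHom.comp_apply, AddMonoidHom.comp_apply, K1.map_map,
      ← MonoidAlgebra.mapDomainRingHom_comp]
    congr 1
    exact map_conj_eq R G _ _ g (fun a => rfl) x)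

/-- **the joint assembly map in degree one** -/
noncomputable def assembly00 : HnK0 R G 0 × H0K1 R G →+ KQ (MonoidAlgebra R G) 0 :=
  (assemblyN R 0 G).coprod (assembly10 R G)

end

section

variable {R : Type u} [Ring R] {S : Type u'} [Ring S] {G : Type v} [Group G]

theorem assembly10_cl (F : FamSub G FinSub) (x : K1 (MonoidAlgebra R F.1)) :
    assembly10 R G (cl F x) =
      kq1 (K1.map (MonoidAlgebra.mapDomainRingHom R F.1.subtype) x) := lift10_cl _ _ F x

theorem assembly00_apply (w : HnK0 R G 0 × H0K1 R G) :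
    assembly00 R G w = assemblyN R 0 G w.1 + assembly10 R G w.2 := rfl

/-- The homomorphism of the colimits. -/
noncomputable def src0 (τ : NatK1 R S G) : H0K1 R G →+ H0K1 S G :=
  lift10 (fun F => (cl F).comp (τ.app F)) (by
    intro F F' g h x
    change cl F' (τ.app F' (K1.map _ x)) = cl F (τ.app F x)
    rw [τ.nat, cl_conj])

theorem src0_cl (τ : NatK1 R S G) (F : FamSub G FinSub) (x : K1 (MonoidAlgebra R F.1)) :
    src0 τ (cl F x) = cl F (τ.app F x) := lift10_cl _ _ F x

/-- **The reduction principle in degree one.** -/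
theorem ratInj00_of_family {ι : Type w} (s : Finset ι) (T : ι → Type u') [∀ i, Ring (T i)]
    (τ : ∀ i, NatK0 R (T i) G) (σ : ∀ i, NatK0 (T i) R G)
    (τ' : ∀ i, NatK1 R (T i) G) (σ' : ∀ i, NatK1 (T i) R G) {c c' : ℕ} (hc : c ≠ 0) (hc' : c' ≠ 0)
    (hστ : ∀ (F : FamSub G FinSub) (x : K0 (MonoidAlgebra R F.1)),
      ∑ i ∈ s, (σ i).app F ((τ i).app F x) = c • x)
    (hστ' : ∀ (F : FamSub G FinSub) (x : K1 (MonoidAlgebra R F.1)),
      ∑ i ∈ s, (σ' i).app F ((τ' i).app F x) = c' • x)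
    (κ : ∀ i, KQ (MonoidAlgebra R G) 0 →+ KQ (MonoidAlgebra (T i) G) 0)
    (hκ : ∀ i ∈ s, ∀ (F : FamSub G FinSub) (x : K0 (MonoidAlgebra R F.1))
      (z : HG (Subgroup.centralizer (F.1 : Set G)) 0),
      κ i (assemblyN R 0 G (sy F x z)) = assemblyN (T i) 0 G (sy F ((τ i).app F x) z))
    (hκ' : ∀ i ∈ s, ∀ (F : FamSub G FinSub) (x : K1 (MonoidAlgebra R F.1)),
      κ i (assembly10 R G (cl F x)) = assembly10 (T i) G (cl F ((τ' i).app F x)))
    (h : ∀ i ∈ s, RatInj (assembly00 (T i) G)) : RatInj (assembly00 R G) := by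
  classical
  have hκ1 : ∀ i ∈ s, ∀ w, κ i (assemblyN R 0 G w) =
      assemblyN (T i) 0 G ((τ i).src 0 w) := by
    intro i hi w
    have h1 : (κ i).comp (assemblyN R 0 G) =
        (assemblyN (T i) 0 G).comp ((τ i).src 0) := by
      apply hnk0_ext
      intro F x z
      rw [AddMonoidHom.comp_apply, AddMonoidHom.comp_apply, hκ i hi, NatK0.src_sy]
    exact DFunLike.congr_fun h1 w
  have hκ2 : ∀ i ∈ s, ∀ w, κ i (assembly10 R G w) = assembly10 (T i) G (src0 (τ' i) w) := by
    intro i hi w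
    have h1 : (κ i).comp (assembly10 R G) = (assembly10 (T i) G).comp (src0 (τ' i)) := by
      apply h0k1_ext
      intro F x
      rw [AddMonoidHom.comp_apply, AddMonoidHom.comp_apply, hκ' i hi, src0_cl]
    exact DFunLike.congr_fun h1 w
  have hid : ∀ w : HnK0 R G 0, ∑ i ∈ s, (σ i).src 0 ((τ i).src 0 w) = c • w := by
    intro w
    have h1 : ∑ i ∈ s, ((σ i).src 0).comp ((τ i).src 0) =
        c • AddMonoidHom.id (HnK0 R G 0) := by
      apply hnk0_ext
      intro F x z
      rw [AddMonoidHom.finsetSum_apply, AddMonoidHom.nsmul_apply, AddMonoidHom.id_apply]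
      have h2 : ∀ i ∈ s, (((σ i).src 0).comp ((τ i).src 0)) (sy F x z) =
          syH F z ((σ i).app F ((τ i).app F x)) := by
        intro i _
        rw [AddMonoidHom.comp_apply, NatK0.src_sy, NatK0.src_sy]
        rfl
      rw [Finset.sum_congr rfl h2, ← map_sum, hστ, map_nsmul]
      rfl
    have h3 := DFunLike.congr_fun h1 w
    rw [AddMonoidHom.finsetSum_apply, AddMonoidHom.nsmul_apply] at h3
    exact h3
  have hid' : ∀ w : H0K1 R G, ∑ i ∈ s, src0 (σ' i) (src0 (τ' i) w) = c' • w := by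
    intro w
    have h1 : ∑ i ∈ s, (src0 (σ' i)).comp (src0 (τ' i)) = c' • AddMonoidHom.id (H0K1 R G) := by
      apply h0k1_ext
      intro F x
      rw [AddMonoidHom.finsetSum_apply, AddMonoidHom.nsmul_apply, AddMonoidHom.id_apply]
      have h2 : ∀ i ∈ s, ((src0 (σ' i)).comp (src0 (τ' i))) (cl F x) =
          cl F ((σ' i).app F ((τ' i).app F x)) := by
        intro i _
        rw [AddMonoidHom.comp_apply, src0_cl, src0_cl]
      rw [Finset.sum_congr rfl h2, ← map_sum, hστ', map_nsmul]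
    have h3 := DFunLike.congr_fun h1 w
    rw [AddMonoidHom.finsetSum_apply, AddMonoidHom.nsmul_apply] at h3
    exact h3
  rw [ratInj_iff]
  intro z M hM hz
  have h4 : ∀ i : ι, ∃ m : ℤ, m ≠ 0 ∧ (i ∈ s → m • (τ i).src 0 z.1 = 0 ∧
      m • src0 (τ' i) z.2 = 0) := by
    intro i
    by_cases hi : i ∈ s
    · obtain ⟨m, hm, h5⟩ := ratInj_iff.1 (h i hi) ((τ i).src 0 z.1, src0 (τ' i) z.2) M hM (by
        rw [assembly00_apply]
        change M • (assemblyN (T i) 0 G ((τ i).src 0 z.1) +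
          assembly10 (T i) G (src0 (τ' i) z.2)) = 0
        rw [← hκ1 i hi, ← hκ2 i hi, ← map_add, ← map_zsmul, ← assembly00_apply, hz, map_zero])
      exact ⟨m, hm, fun _ => ⟨congrArg Prod.fst h5, congrArg Prod.snd h5⟩⟩
    · exact ⟨1, one_ne_zero, fun h => absurd h hi⟩
  choose m hm h5 using h4
  have hprod : (∏ i ∈ s, m i) ≠ 0 := Finset.prod_ne_zero_iff.2 fun i _ => hm i
  have h6 : ∀ i ∈ s, (∏ i ∈ s, m i) • (τ i).src 0 z.1 = 0 := by
    intro i hi
    rw [← Finset.prod_erase_mul s m hi, mul_smul, (h5 i hi).1, smul_zero]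
  have h7 : ∀ i ∈ s, (∏ i ∈ s, m i) • src0 (τ' i) z.2 = 0 := by
    intro i hi
    rw [← Finset.prod_erase_mul s m hi, mul_smul, (h5 i hi).2, smul_zero]
  have h8 : ((∏ i ∈ s, m i) * c) • z.1 = 0 := by
    calc ((∏ i ∈ s, m i) * c) • z.1 =
        (∏ i ∈ s, m i) • ∑ i ∈ s, (σ i).src 0 ((τ i).src 0 z.1) := by
          rw [hid, mul_smul, natCast_zsmul]
      _ = ∑ i ∈ s, (σ i).src 0 ((∏ i ∈ s, m i) • (τ i).src 0 z.1) := by
        rw [Finset.smul_sum]
        exact Finset.sum_congr rfl fun i _ => (map_zsmul _ _ _).symm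
      _ = 0 := Finset.sum_eq_zero fun i hi => by rw [h6 i hi, map_zero]
  have h9 : ((∏ i ∈ s, m i) * c') • z.2 = 0 := by
    calc ((∏ i ∈ s, m i) * c') • z.2 =
        (∏ i ∈ s, m i) • ∑ i ∈ s, src0 (σ' i) (src0 (τ' i) z.2) := by
          rw [hid', mul_smul, natCast_zsmul]
      _ = ∑ i ∈ s, src0 (σ' i) ((∏ i ∈ s, m i) • src0 (τ' i) z.2) := by
        rw [Finset.smul_sum]
        exact Finset.sum_congr rfl fun i _ => (map_zsmul _ _ _).symm
      _ = 0 := Finset.sum_eq_zero fun i hi => by rw [h7 i hi, map_zero]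
  refine ⟨((∏ i ∈ s, m i) * c) * ((∏ i ∈ s, m i) * c'), mul_ne_zero
    (mul_ne_zero hprod (by exact_mod_cast hc)) (mul_ne_zero hprod (by exact_mod_cast hc')), ?_⟩
  refine Prod.ext ?_ ?_
  · change (((∏ i ∈ s, m i) * c) * ((∏ i ∈ s, m i) * c')) • z.1 = 0
    rw [mul_comm, mul_smul, h8, smul_zero]
  · change (((∏ i ∈ s, m i) * c) * ((∏ i ∈ s, m i) * c')) • z.2 = 0
    rw [mul_smul, h9, smul_zero]

/-- the case of one ring -/
theorem ratInj00_of_one (τ : NatK0 R S G) (σ : NatK0 S R G) (τ' : NatK1 R S G)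
    (σ' : NatK1 S R G) {c c' : ℕ} (hc : c ≠ 0) (hc' : c' ≠ 0)
    (hστ : ∀ (F : FamSub G FinSub) (x : K0 (MonoidAlgebra R F.1)),
      σ.app F (τ.app F x) = c • x)
    (hστ' : ∀ (F : FamSub G FinSub) (x : K1 (MonoidAlgebra R F.1)),
      σ'.app F (τ'.app F x) = c' • x)
    (κ : KQ (MonoidAlgebra R G) 0 →+ KQ (MonoidAlgebra S G) 0)
    (hκ : ∀ (F : FamSub G FinSub) (x : K0 (MonoidAlgebra R F.1))
      (z : HG (Subgroup.centralizer (F.1 : Set G)) 0),
      κ (assemblyN R 0 G (sy F x z)) = assemblyN S 0 G (sy F (τ.app F x) z))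
    (hκ' : ∀ (F : FamSub G FinSub) (x : K1 (MonoidAlgebra R F.1)),
      κ (assembly10 R G (cl F x)) = assembly10 S G (cl F (τ'.app F x)))
    (h : RatInj (assembly00 S G)) : RatInj (assembly00 R G) := by
  refine ratInj00_of_family (ι := Unit) Finset.univ (fun _ => S) (fun _ => τ) (fun _ => σ)
    (fun _ => τ') (fun _ => σ') hc hc' (fun F x => ?_) (fun F x => ?_) (fun _ => κ)
    (fun _ _ => hκ) (fun _ _ => hκ') (fun _ _ => h)
  · rw [Finset.univ_unique, Finset.sum_singleton]
    exact hστ F x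
  · rw [Finset.univ_unique, Finset.sum_singleton]
    exact hστ' F x

theorem ofHom_asm0 (φ : R →+* S) (F : FamSub G FinSub) (x : K1 (MonoidAlgebra R F.1)) :
    KQ.map (MonoidAlgebra.mapRingHom G φ) (assembly10 R G (cl F x)) =
      assembly10 S G (cl F ((NatK1.ofHom G φ).app F x)) := by
  rw [assembly10_cl, assembly10_cl, map_kq1, NatK1.ofHom_app, K1.map_map, K1.map_map,
    mapRing_mapDomain]

end

section

variable {R : Type u} [Ring R] {R' : Type w} [Ring R'] {r : ℕ}

theorem ofMat_asm0 (ρ : R' →+* Matrix (Fin r) (Fin r) R) {G : Type v} [Group G]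
    (F : FamSub G FinSub) (x : K1 (MonoidAlgebra R' F.1)) :
    KQ.push (thM ρ G) (assembly10 R' G (cl F x)) =
      assembly10 R G (cl F ((NatK1.ofMat ρ G).app F x)) := by
  rw [assembly10_cl, assembly10_cl, push_kq1, NatK1.ofMat_app, push_map1, K1.map_push]
  have h1 : (thM ρ G).comp (MonoidAlgebra.mapDomainRingHom R' F.1.subtype) =
      (MonoidAlgebra.mapDomainRingHom R F.1.subtype).mapMatrix.comp (thM ρ F.1) :=
    RingHom.ext fun y => thM_mapDomain ρ _ y
  rw [h1]

end

section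

variable {R : Type u} [Ring R] {R' : Type w} [Ring R'] {G : Type v} [Group G]

/-- **Retracts up to multiplicity.** -/
theorem ratInj00_of_retract (m : ℕ) (hm : 0 < m) (ι : R →+* R')
    (ρ : R' →+* Matrix (Fin m) (Fin m) R) (h : ∀ a, ρ (ι a) = Matrix.scalar (Fin m) a)
    (h' : RatInj (assembly00 R' G)) : RatInj (assembly00 R G) :=
  ratInj00_of_one (NatK0.ofHom G ι) (NatK0.ofMat ρ G) (NatK1.ofHom G ι) (NatK1.ofMat ρ G)
    (c := m) (c' := m) hm.ne' hm.ne'
    (fun F x => by
      rw [NatK0.ofMat_app, NatK0.ofHom_app, K0.push_map, thM_retract ι ρ h, push_scalar])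
    (fun F x => by
      rw [NatK1.ofMat_app, NatK1.ofHom_app, push_map1, thM_retract ι ρ h, push_scalar1])
    (KQ.map (MonoidAlgebra.mapRingHom G ι)) (NatK0.ofHom_asm ι) (ofHom_asm0 ι) h'

/-- **Matrix rings.** -/
theorem ratInj00_matrix (r : ℕ) (hr : 0 < r) (h : RatInj (assembly00 R G)) :
    RatInj (assembly00 (Matrix (Fin r) (Fin r) R) G) :=
  ratInj00_of_one (NatK0.ofMat (RingHom.id (Matrix (Fin r) (Fin r) R)) G)
    (NatK0.ofHom G (Matrix.scalar (Fin r)))
    (NatK1.ofMat (RingHom.id (Matrix (Fin r) (Fin r) R)) G)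
    (NatK1.ofHom G (Matrix.scalar (Fin r))) (c := r) (c' := r) hr.ne' hr.ne'
    (fun F x => by
      rw [NatK0.ofMat_app, NatK0.ofHom_app, K0.map_push,
        K0.push_congr _ (Matrix.scalar (Fin r)) (flipM R r F.1) (flipM R r F.1)
          (flipM_mul r F.1) (flipM_mul r F.1) (flipM_comm r F.1), push_scalar])
    (fun F x => by
      rw [NatK1.ofMat_app, NatK1.ofHom_app, K1.map_push,
        Pool.Agent.H95.WH.K1.push_congr _ (Matrix.scalar (Fin r)) (flipM R r F.1) (flipM R r F.1)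
          (flipM_mul r F.1) (flipM_mul r F.1) (fun s => (flipM_comm r F.1 s).symm), push_scalar1])
    (KQ.push (thM (RingHom.id (Matrix (Fin r) (Fin r) R)) G)) (NatK0.ofMat_asm _)
    (ofMat_asm0 _) h

/-- **Finite extensions of the ground field.** -/
theorem ratInj00_finExt {G : Type w} [Group G] (k : Type u) [Field k] (L : Type v) [Field L]
    [Algebra k L] [Module.Finite k L] (A : Type u) [Ring A] [Algebra k A]
    (h : RatInj (assembly00 (L ⊗[k] A) G)) : RatInj (assembly00 A G) :=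
  ratInj00_of_retract (Module.finrank k L) Module.finrank_pos
    (Algebra.TensorProduct.includeRight : A →ₐ[k] L ⊗[k] A).toRingHom
    (extMat k L A (Module.finBasis k L)).toRingHom
    (fun a => extMat_tmul k L A (Module.finBasis k L) a) h

/-- **Finite products of rings.** -/
theorem ratInj00_pi {ι : Type w} [Finite ι] (T : ι → Type u) [∀ i, Ring (T i)] {G : Type v}
    [Group G] (h : ∀ i, RatInj (assembly00 (T i) G)) :
    RatInj (assembly00 (∀ i, T i) G) := by
  classical
  have := Fintype.ofFinite ι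
  refine ratInj00_of_family Finset.univ T (fun i => NatK0.ofHom G (Pi.evalRingHom T i))
    (fun i => NatK0.ofN (injN T i) G) (fun i => NatK1.ofHom G (Pi.evalRingHom T i))
    (fun i => NatK1.ofN (injN T i) G) one_ne_zero one_ne_zero (fun F x => ?_) (fun F x => ?_)
    (fun i => KQ.map (MonoidAlgebra.mapRingHom G (Pi.evalRingHom T i)))
    (fun i _ F x z => NatK0.ofHom_asm (Pi.evalRingHom T i) F x z)
    (fun i _ F x => ofHom_asm0 (Pi.evalRingHom T i) F x) (fun i _ => h i)
  · rw [one_smul]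
    exact sum_injN T F.1 x
  · rw [one_smul]
    exact sum_injN1 T F.1 x

end

/-- **Nilpotent kernels.** -/
theorem ratInj00_of_nilKer {R : Type u} [Ring R] {S : Type u'} [Ring S] {G : Type v} [Group G]
    {φ : R →+* S} (hs : Function.Surjective φ) (hn : NilKer φ)
    {m : ℕ} (hm0 : m ≠ 0) (hm : (m : R) = 0)
    (h : RatInj (assembly00 S G)) : RatInj (assembly00 R G) := by
  have h0 : ∃ K, NilN φ K := hn
  obtain ⟨K, hK⟩ := h0
  exact ratInj00_of_one (NatK0.ofHom G φ) (NatK0.ofNil G hs hn) (NatK1.ofHom G φ)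
    (NatK1.ofNil G hs hK hm) one_ne_zero (mul_ne_zero hm0 (Nat.factorial_ne_zero K))
    (fun F x => by
      rw [one_smul]
      exact K0.nilLift_map (mapRing_surjective hs F.1) (hn.monoidAlgebra F.1) x)
    (fun F x => sec1_map (hlift_of hs hK F.1) (hker_of hK hm F.1) x)
    (KQ.map (MonoidAlgebra.mapRingHom G φ)) (NatK0.ofHom_asm φ) (ofHom_asm0 φ) h

end Pool.Agent.H71.FU0
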