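import Pool.Agent.H71.FU0.Field0
import Pool.Agent.H71.FQ.StG

/-!
# Project FU, degree one: the classes of rings and groups
-/

set_option autoImplicit false

open Matrix

universe u v w

namespace Pool.Agent.H71.FU0

open Pool.Agent.H71.FJ (NilKer)
open Pool.Agent.H71.FQS (PSep Cent NilFin LocRing psep_of hnK0_subsingleton k1_subsingleton
  nilFin_of_finite)
open Pool.Agent.H95.WH (K1 FamSub FinSub)

section

variable {R : Type u} [Ring R] {G : Type v} [Group G]

/-- The condition on the group in degree one. -/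
def LocGrp0 (p : ℕ) (G : Type v) [Group G] : Prop :=
  ∀ S : Finset G, ∃ G' : Subgroup G, (∀ g ∈ S, g ∈ G') ∧
    ∀ C : Subgroup G', Finite C → IsCyclic C → ¬ p ∣ Nat.card C → PSep p (Cent C) 0

theorem ratInj00_alg {p : ℕ} [Fact p.Prime] (k : Type u) [Field k]
    [CharP k p] (A : Type u) [Ring A] [Algebra k A] [Module.Finite k A] (G' : Type v) [Group G']
    (h2 : ∀ C : Subgroup G', Finite C → IsCyclic C → ¬ p ∣ Nat.card C → PSep p (Cent C) 0) :
    FQ.RatInj (assembly00 A G') := by
  obtain ⟨L, _, _, _, m, r, φ, hr, hs, hn⟩ := FQ.exists_splitting k A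
  have : CharP L p := charP_of_injective_algebraMap (algebraMap k L).injective p
  have hp : (p : TensorProduct k L A) = 0 := by
    have h3 : (algebraMap L (TensorProduct k L A)) (p : L) = (p : TensorProduct k L A) :=
      map_natCast _ p
    rw [← h3, CharP.cast_eq_zero, map_zero]
  refine ratInj00_finExt k L A (ratInj00_of_nilKer hs hn (Fact.out : p.Prime).ne_zero hp
    (ratInj00_pi _ fun i => ?_))
  exact ratInj00_matrix (r i) (hr i) (ratInj00_field p L G' fun C h3 h4 h5 =>
    psep_of (Γ := Subgroup.centralizer (C : Set G')) (h2 C h3 h4 h5))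

theorem ratInj00_fd {p : ℕ} [Fact p.Prime] (k : Type u) [Field k]
    [CharP k p] (A : Type u) [Ring A] [Algebra k A] [Module.Finite k A] (h : LocGrp0 p G) :
    FQ.RatInj (assembly00 A G) := by
  refine ratInj00_directed (fun G' : Subgroup G =>
    ∀ C : Subgroup G', Finite C → IsCyclic C → ¬ p ∣ Nat.card C → PSep p (Cent C) 0) (fun S => ?_)
    fun G' hG' => ratInj00_alg k A G' hG'
  obtain ⟨G', h1, h2⟩ := h S
  exact ⟨G', h2, h1⟩

theorem h0K1_subsingleton [Subsingleton R] (x : H0K1 R G) : x = 0 := by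
  induction x using h0k1_induction with
  | h0 => rfl
  | h1 F x =>
    have : Subsingleton (MonoidAlgebra R F.1) := inferInstance
    have h1 : x = 0 := k1_subsingleton x
    rw [h1, map_zero]
  | h2 a b ha hb => rw [ha, hb, add_zero]
  | h3 a ha => rw [ha, neg_zero]

theorem ratInj00_subsingleton [Subsingleton R] : FQ.RatInj (assembly00 R G) := by
  apply FQ.ratInj_of
  intro z M hM h
  refine ⟨1, one_ne_zero, ?_⟩
  rw [one_smul]
  exact Prod.ext (hnK0_subsingleton z.1) (h0K1_subsingleton z.2)

theorem ratInj00_nilFin (h : NilFin R)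
    (hG : ∀ (p : ℕ) [Fact p.Prime], p ∣ ringChar R → LocGrp0 p G) :
    FQ.RatInj (assembly00 R G) := by
  obtain ⟨m, A, hA, φ, hs, ⟨N, hN⟩, h⟩ := h
  have hq : ∃ M : ℕ, M ≠ 0 ∧ (M : R) = 0 := by
    choose p k hk hka hp hc hf using h
    refine ⟨(∏ i, p i) ^ N, pow_ne_zero _ (Finset.prod_ne_zero_iff.2 fun i _ => (hp i).ne_zero), ?_⟩
    have h1 : ((∏ i, p i : ℕ) : R) ∈ RingHom.ker φ := by
      rw [RingHom.mem_ker, map_natCast]
      funext i
      have h2 : ((∏ i, p i : ℕ) : A i) = 0 := by
        rw [← Finset.mul_prod_erase Finset.univ p (Finset.mem_univ i), Nat.cast_mul]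
        have h3 : ((p i : ℕ) : A i) = 0 := by
          let _ := hk i
          let _ := hka i
          have := hc i
          have h4 : (algebraMap (k i) (A i)) ((p i : ℕ) : k i) = ((p i : ℕ) : A i) :=
            map_natCast _ _
          rw [← h4, CharP.cast_eq_zero, map_zero]
        rw [h3, zero_mul]
      rw [Pi.natCast_apply, h2]
      rfl
    have h5 : ((∏ i, p i : ℕ) : R) ^ N ∈ RingHom.ker φ ^ N := Ideal.pow_mem_pow h1 N
    rw [hN] at h5
    rw [Nat.cast_pow]
    exact (Submodule.mem_bot R).1 h5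
  obtain ⟨M, hM, hM0⟩ := hq
  refine ratInj00_of_nilKer hs (FQ.nilKer_of_ker_pow φ hN) hM hM0 (ratInj00_pi _ fun i => ?_)
  obtain ⟨p, k, _, _, hp, hk, hf⟩ := h i
  have : Fact p.Prime := ⟨hp⟩
  rcases subsingleton_or_nontrivial (A i) with hi | hi
  · exact ratInj00_subsingleton
  · refine ratInj00_fd k (A i) (hG p ?_)
    have h1 : ((ringChar R : ℕ) : A i) = 0 := by
      have h2 : φ ((ringChar R : ℕ) : R) i = 0 := by
        rw [CharP.cast_eq_zero, map_zero]
        rfl
      rw [map_natCast] at h2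
      exact h2
    have : CharP (A i) p := charP_of_injective_algebraMap (algebraMap k (A i)).injective p
    exact (CharP.cast_eq_zero_iff (A i) p _).1 h1

/-- **Rational injectivity of the joint assembly map in degree one.** -/
theorem ratInj00_main (hR : LocRing R)
    (hG : ∀ (p : ℕ) [Fact p.Prime], p ∣ ringChar R → LocGrp0 p G) :
    FQ.RatInj (assembly00 R G) := by
  refine ratInj00_of_local fun S => ?_
  obtain ⟨R', h1, h2⟩ := hR S
  refine ⟨R', inferInstance, R'.subtype, Subtype.val_injective,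
    fun s hs => ⟨⟨s, h1 s hs⟩, rfl⟩, ?_⟩
  have h3 : ringChar R' = ringChar R := by
    have h4 := ringChar.charP R
    have h5 : CharP R' (ringChar R) := inferInstance
    exact ringChar.eq R' (ringChar R)
  have h4 : NilFin R' := h2.elim (fun h => nilFin_of_finite) id
  refine ratInj00_nilFin h4 fun p hp hd => hG p ?_
  rw [← h3]
  exact hd

end

end Pool.Agent.H71.FU0
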