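import Pool.Agent.H71.FQ.MorA
import Pool.Agent.H95.WH.Push

/-!
# Project FU, degree one: first homology and `K₁`

`e1 g` is the class of the cycle `(1, g)`. `kq1 : K₁(A) → KQ A 0`, `[U] ↦ [N, e1 U]`, and `kap : KQ A 0 → K₁(A)` with
`kap (kq1 x) = x`.
-/

set_option autoImplicit false

open Matrix

universe u v w

namespace Pool.Agent.H71.FU0

open Pool.Agent.H71.FQ
open Pool.Agent.H95.WH (K1 K1.mk K1.lift K1.lift_mk K1.hom_ext K1.mk_mul K1.mk_stab K1.map
  K1.map_mk stab flatU reU)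

section

variable {Γ : Type v} [Group Γ] {Γ' : Type w} [Group Γ']

theorem cyc0 (c : Cx ℤ Γ (0 + 1)) : c ∈ cyc Γ 0 := by
  change bd ℤ Γ 0 c ∈ coi Γ 0
  induction c using Finsupp.induction_linear with
  | zero =>
    rw [map_zero]
    exact Submodule.zero_mem _
  | add a b ha hb =>
    rw [map_add]
    exact Submodule.add_mem _ ha hb
  | single x r =>
    have h : (Finsupp.single x r : Cx ℤ Γ (0 + 1)) = r • Finsupp.single x 1 := by
      rw [Finsupp.smul_single, smul_eq_mul, mul_one]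
    rw [h, map_smul]
    refine Submodule.smul_mem _ _ ?_
    rw [bd_single, Fin.sum_univ_two]
    refine Submodule.subset_span ⟨x 1 * (x 0)⁻¹, fun _ => x 0, ?_⟩
    have h0 : (fun j : Fin (0 + 1) => x ((0 : Fin 2).succAbove j)) = fun _ => x 1 * (x 0)⁻¹ * x 0 := by
      funext j
      have hj : j = 0 := Fin.ext (by omega)
      rw [hj, inv_mul_cancel_right]
      rfl
    have h1 : (fun j : Fin (0 + 1) => x ((1 : Fin 2).succAbove j)) = fun _ => x 0 := by
      funext j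
      have hj : j = 0 := Fin.ext (by omega)
      rw [hj]
      rfl
    rw [h0, h1]
    simp only [Fin.val_zero, Fin.val_one, pow_zero, pow_one, one_smul, neg_smul]
    rw [sub_eq_add_neg]

/-- the class of the cycle `(1, g)` -/
noncomputable def e1 (g : Γ) : HG Γ 0 :=
  HG.mk ⟨Finsupp.single (![1, g] : Fin (0 + 2) → Γ) 1, cyc0 _⟩

theorem mk_single (x : Fin (0 + 2) → Γ) :
    HG.mk ⟨Finsupp.single x 1, cyc0 _⟩ = e1 ((x 0)⁻¹ * x 1) := by
  rw [e1, HG.mk_eq_iff]
  refine Submodule.mem_sup_right (Submodule.subset_span ⟨x 0, ![1, (x 0)⁻¹ * x 1], ?_⟩)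
  change (Finsupp.single x 1 : Cx ℤ Γ (0 + 1)) - Finsupp.single ![1, (x 0)⁻¹ * x 1] 1 = _
  congr 2
  funext j
  refine Fin.cases ?_ (fun k => ?_) j
  · simp
  · rw [Subsingleton.elim k 0]
    simp

theorem e1_mul (g h : Γ) : e1 (g * h) = e1 g + e1 h := by
  have h1 : e1 h = HG.mk ⟨Finsupp.single (![g, g * h] : Fin (0 + 2) → Γ) 1, cyc0 _⟩ := by
    rw [mk_single]
    congr 1
    simp
  rw [h1, e1, e1, ← HG.mk_add, HG.mk_eq_iff]
  refine Submodule.mem_sup_left ⟨-(Finsupp.single (![1, g, g * h] : Fin (0 + 3) → Γ) 1), ?_⟩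
  rw [map_neg]
  have h2 := bd_single (R := ℤ) (X := Γ) (0 + 1) (![1, g, g * h] : Fin (0 + 3) → Γ)
  have h3 : bd ℤ Γ (0 + 1) (Finsupp.single (![1, g, g * h] : Fin (0 + 3) → Γ) 1) =
      Finsupp.single (![g, g * h] : Fin (0 + 2) → Γ) 1 - Finsupp.single (![1, g * h] : Fin (0 + 2) → Γ) 1 +
        Finsupp.single (![1, g] : Fin (0 + 2) → Γ) 1 := by
    rw [h2]
    change ∑ i : Fin 3, _ = _
    rw [Fin.sum_univ_three]
    have k0 : (fun j : Fin (0 + 2) => (![1, g, g * h] : Fin (0 + 3) → Γ) ((0 : Fin 3).succAbove j)) =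
        ![g, g * h] := by
      funext j
      fin_cases j <;> rfl
    have k1 : (fun j : Fin (0 + 2) => (![1, g, g * h] : Fin (0 + 3) → Γ) ((1 : Fin 3).succAbove j)) =
        ![1, g * h] := by
      funext j
      fin_cases j <;> rfl
    have k2 : (fun j : Fin (0 + 2) => (![1, g, g * h] : Fin (0 + 3) → Γ) ((2 : Fin 3).succAbove j)) =
        ![1, g] := by
      funext j
      fin_cases j <;> rfl
    have e0 : (-1 : ℤ) ^ ((0 : Fin 3) : ℕ) = 1 := by decide
    have e1' : (-1 : ℤ) ^ ((1 : Fin 3) : ℕ) = -1 := by decide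
    have e2 : (-1 : ℤ) ^ ((2 : Fin 3) : ℕ) = 1 := by decide
    rw [e0, e1', e2, one_smul, one_smul, neg_smul, one_smul, ← sub_eq_add_neg]
    exact congrArg₂ (· + ·) (congrArg₂ (· - ·) (congrArg (fun y => Finsupp.single y (1 : ℤ)) k0)
      (congrArg (fun y => Finsupp.single y (1 : ℤ)) k1)) (congrArg (fun y => Finsupp.single y (1 : ℤ)) k2)
  rw [h3]
  change _ = Finsupp.single (![1, g * h] : Fin (0 + 2) → Γ) (1 : ℤ) -
    (Finsupp.single (![1, g] : Fin (0 + 2) → Γ) (1 : ℤ) +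
      Finsupp.single (![g, g * h] : Fin (0 + 2) → Γ) (1 : ℤ))
  abel

theorem e1_one : e1 (1 : Γ) = 0 := by
  have h := e1_mul (1 : Γ) 1
  rw [mul_one] at h
  exact left_eq_add.1 h

theorem hg0_induction {P : HG Γ 0 → Prop} (h0 : P 0) (h1 : ∀ g, P (e1 g))
    (h2 : ∀ a b, P a → P b → P (a + b)) (h3 : ∀ a, P a → P (-a)) (x : HG Γ 0) : P x := by
  obtain ⟨⟨c, hc⟩, rfl⟩ := HG.mk_surjective x
  induction c using Finsupp.induction_linear with
  | zero =>
    have e : (HG.mk ⟨(0 : Cx ℤ Γ (0 + 1)), hc⟩ : HG Γ 0) = 0 := by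
      have h := HG.mk_add (⟨(0 : Cx ℤ Γ (0 + 1)), hc⟩ : cyc Γ 0) 0
      rfl
    rw [e]
    exact h0
  | add a b ha hb =>
    have e : (HG.mk ⟨a + b, hc⟩ : HG Γ 0) = HG.mk ⟨a, cyc0 a⟩ + HG.mk ⟨b, cyc0 b⟩ := rfl
    rw [e]
    exact h2 _ _ (ha _) (hb _)
  | single x r =>
    have e : ∀ r : ℤ, (HG.mk ⟨Finsupp.single x r, cyc0 _⟩ : HG Γ 0) = r • e1 ((x 0)⁻¹ * x 1) := by
      intro r
      rw [← mk_single]
      have h : (Finsupp.single x r : Cx ℤ Γ (0 + 1)) = r • Finsupp.single x 1 := by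
        rw [Finsupp.smul_single, smul_eq_mul, mul_one]
      have h' : (⟨Finsupp.single x r, cyc0 _⟩ : cyc Γ 0) = r • ⟨Finsupp.single x 1, cyc0 _⟩ :=
        Subtype.ext h
      rw [h']
      rfl
    rw [e r]
    have hn : ∀ n : ℕ, P (n • e1 ((x 0)⁻¹ * x 1)) := by
      intro n
      induction n with
      | zero =>
        rw [zero_smul]
        exact h0
      | succ n ih =>
        rw [succ_nsmul]
        exact h2 _ _ ih (h1 _)
    obtain ⟨n, rfl | rfl⟩ := r.eq_nat_or_neg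
    · rw [natCast_zsmul]
      exact hn n
    · rw [neg_smul, natCast_zsmul]
      exact h3 _ (hn n)

theorem hg0_ext {M : Type*} [AddCommGroup M] {f g : HG Γ 0 →+ M} (h : ∀ a, f (e1 a) = g (e1 a)) :
    f = g := by
  ext x
  induction x using hg0_induction with
  | h0 => rw [map_zero, map_zero]
  | h1 a => exact h a
  | h2 a b ha hb => rw [map_add, map_add, ha, hb]
  | h3 a ha => rw [map_neg, map_neg, ha]

theorem map_e1 (f : Γ →* Γ') (g : Γ) : HG.map 0 f (e1 g) = e1 (f g) := by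
  rw [e1, HG.map_mk]
  have h : (⟨push ℤ f (0 + 1) (Finsupp.single (![1, g] : Fin (0 + 2) → Γ) 1), cyc0 _⟩ :
      cyc Γ' 0) = ⟨Finsupp.single (fun j => f ((![1, g] : Fin (0 + 2) → Γ) j)) 1, cyc0 _⟩ :=
    Subtype.ext (push_single f (0 + 1) _)
  refine (congrArg HG.mk h).trans ?_
  rw [mk_single]
  congr 1
  simp

/-- the homomorphism of the first homology given by a homomorphism of groups -/
noncomputable def ev1 {M : Type*} [AddCommGroup M] (χ : Γ →* Multiplicative M) : HG Γ 0 →+ M :=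
  HG.ev (φ := fun x : Fin (0 + 2) → Γ => Multiplicative.toAdd (χ ((x 0)⁻¹ * x 1)))
    ⟨fun g x => by
      congr 2
      group, fun x => by
      change ∑ i : Fin 3, _ = _
      rw [Fin.sum_univ_three]
      have e0 : (-1 : ℤ) ^ ((0 : Fin 3) : ℕ) = 1 := by decide
      have e1' : (-1 : ℤ) ^ ((1 : Fin 3) : ℕ) = -1 := by decide
      have e2 : (-1 : ℤ) ^ ((2 : Fin 3) : ℕ) = 1 := by decide
      rw [e0, e1', e2, one_smul, one_smul, neg_smul, one_smul]
      change Multiplicative.toAdd (χ ((x 1)⁻¹ * x 2)) + -Multiplicative.toAdd (χ ((x 0)⁻¹ * x 2)) +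
        Multiplicative.toAdd (χ ((x 0)⁻¹ * x 1)) = 0
      have h : (x 0)⁻¹ * x 2 = ((x 0)⁻¹ * x 1) * ((x 1)⁻¹ * x 2) := by group
      rw [h, map_mul χ ((x 0)⁻¹ * x 1) ((x 1)⁻¹ * x 2), toAdd_mul]
      abel⟩

theorem ev1_e1 {M : Type*} [AddCommGroup M] (χ : Γ →* Multiplicative M) (g : Γ) :
    ev1 χ (e1 g) = Multiplicative.toAdd (χ g) := by
  rw [ev1, e1, HG.ev_mk, Finsupp.linearCombination_single, one_smul]
  simp

end

section

variable {A : Type u} [Ring A] {A' : Type v} [Ring A']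

theorem cls_e1_stab {N : ℕ} (U : GLm N A) :
    KQ.cls A 0 (N + 1) (e1 (stab U)) = KQ.cls A 0 N (e1 U) := by
  have h := KQ.cls_pair (MonoidHom.id (GLm N A)) (1 : GLm N A →* GLm 1 A) (e1 U)
  rw [HG.map_one, map_zero, add_zero, map_e1, map_e1] at h
  refine Eq.trans ?_ h
  congr 2

/-- The homomorphism `K₁(A) → KQ A 0`. -/
noncomputable def kq1 : K1 A →+ KQ A 0 :=
  K1.lift (fun N U => KQ.cls A 0 N (e1 U))
    (fun N U V => by rw [e1_mul, map_add])
    (fun N U => cls_e1_stab U)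

theorem kq1_mk {N : ℕ} (U : GLm N A) : kq1 (K1.mk U) = KQ.cls A 0 N (e1 U) := K1.lift_mk _ _ _ _

theorem map_kq1 (f : A →+* A') (x : K1 A) : KQ.map f (kq1 x) = kq1 (K1.map f x) := by
  have h : (KQ.map (n := 0) f).comp kq1 = kq1.comp (K1.map f) := by
    apply K1.hom_ext
    intro N U
    rw [AddMonoidHom.comp_apply, AddMonoidHom.comp_apply, kq1_mk, KQ.map_cls, map_e1, K1.map_mk,
      kq1_mk]
    rfl
  exact DFunLike.congr_fun h x

/-- the class of a matrix with another numbering -/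
theorem kq1_cls {ι : Type*} [Fintype ι] [DecidableEq ι] {N : ℕ} (e : Fin N ≃ ι)
    (U : (Matrix ι ι A)ˣ) (V : GLm N A) (hV : V.val = U.val.submatrix e e) :
    kq1 (Pool.Agent.H95.WH.K1.cls U) = KQ.cls A 0 N (e1 V) := by
  have h1 : Pool.Agent.H95.WH.K1.cls U = K1.mk V := by
    rw [← Pool.Agent.H95.WH.K1.cls_reindex e.symm U, Pool.Agent.H95.WH.K1.cls_mk]
    congr 1
    apply Units.ext
    rw [hV, Pool.Agent.H95.WH.reU_val]
    rfl
  rw [h1, kq1_mk]

theorem push_kq1 {r : ℕ} (φ : A →+* Matrix (Fin r) (Fin r) A') (x : K1 A) :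
    KQ.push φ (kq1 x) = kq1 (K1.push φ x) := by
  have h : (KQ.push (n := 0) φ).comp kq1 = kq1.comp (K1.push φ) := by
    apply K1.hom_ext
    intro N U
    rw [AddMonoidHom.comp_apply, AddMonoidHom.comp_apply, kq1_mk, KQ.push_cls, map_e1,
      Pool.Agent.H95.WH.K1.push_mk]
    exact (kq1_cls (fE N r) _ _ rfl).symm
  exact DFunLike.congr_fun h x

/-- the homomorphism `GL_N(A) → K₁(A)` -/
noncomputable def mkHom (N : ℕ) : GLm N A →* Multiplicative (K1 A) where
  toFun U := Multiplicative.ofAdd (K1.mk U)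
  map_one' := by
    have h : K1.mk ((1 : GLm N A) * 1) = K1.mk (1 : GLm N A) + K1.mk (1 : GLm N A) :=
      K1.mk_mul _ _
    rw [mul_one] at h
    exact congrArg Multiplicative.ofAdd (left_eq_add.1 h)
  map_mul' U V := congrArg Multiplicative.ofAdd (K1.mk_mul U V)

theorem mk_blk {N M : ℕ} (U : GLm N A) (V : GLm M A) :
    K1.mk (blk N M A (U, V)) = K1.mk U + K1.mk V := by
  let W : (Matrix (Fin N ⊕ Fin M) (Fin N ⊕ Fin M) A)ˣ :=
    { val := fromBlocks U.val 0 0 V.val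
      inv := fromBlocks U.inv 0 0 V.inv
      val_inv := by rw [fromBlocks_multiply]; simp [← fromBlocks_one]
      inv_val := by rw [fromBlocks_multiply]; simp [← fromBlocks_one] }
  have h1 := Pool.Agent.H95.WH.K1.cls_upper U V 0 W rfl
  rw [← Pool.Agent.H95.WH.K1.cls_mk, ← Pool.Agent.H95.WH.K1.cls_mk, ← Pool.Agent.H95.WH.K1.cls_mk,
    ← h1, ← Pool.Agent.H95.WH.K1.cls_reindex finSumFinEquiv W]
  congr 1

/-- The homomorphism `KQ A 0 → K₁(A)`. -/
noncomputable def kap : KQ A 0 →+ K1 A :=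
  KQ.lift (fun N => ev1 (mkHom N)) (by
    intro N M w
    have h : (ev1 (mkHom (N + M))).comp (HG.map 0 (blk N M A)) =
        (ev1 (mkHom N)).comp (HG.map 0 (MonoidHom.fst (GLm N A) (GLm M A))) +
          (ev1 (mkHom M)).comp (HG.map 0 (MonoidHom.snd (GLm N A) (GLm M A))) := by
      apply hg0_ext
      rintro ⟨U, V⟩
      rw [AddMonoidHom.add_apply, AddMonoidHom.comp_apply, AddMonoidHom.comp_apply,
        AddMonoidHom.comp_apply, map_e1, map_e1, map_e1, ev1_e1, ev1_e1, ev1_e1]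
      exact mk_blk U V
    exact DFunLike.congr_fun h w)

theorem kap_cls {N : ℕ} (U : GLm N A) : kap (KQ.cls A 0 N (e1 U)) = K1.mk U := by
  rw [kap, KQ.lift_cls, ev1_e1]
  rfl

theorem kap_kq1 (x : K1 A) : kap (kq1 x) = x := by
  have h : kap.comp kq1 = AddMonoidHom.id (K1 A) := by
    apply K1.hom_ext
    intro N U
    rw [AddMonoidHom.comp_apply, kq1_mk, kap_cls, AddMonoidHom.id_apply]
  exact DFunLike.congr_fun h x

end

end Pool.Agent.H71.FU0
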